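import Pool.Agent.Q224.Rk.Impl

/-!
# MP_82f05f_nt, Q1 for progressions in `4ℤ + 2` that avoid sums of two squares
-/

namespace Pool.Agent.Results.MP_82f05f_nt.AvoidTwoSquares

open Pool.Agent.Q224.Nu Pool.Agent.Q224.Rk

/-- If `m ≡ 2 (mod 4)` is not a sum of two squares and `ν₃(m)` is even then `4 ∣ ν₂(m)`; hence Q1
holds for all progressions consisting of such numbers, in particular inside `8ℤ + 6`. -/
theorem result :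
    (∀ m : ℕ, m % 4 = 2 → (∀ x y : ℕ, x ^ 2 + y ^ 2 ≠ m) → 2 ∣ nu 3 m → 4 ∣ nu 2 m) ∧
    (∀ A B : ℕ, (∀ n : ℕ, (A * n + B) % 4 = 2) → (∀ n x y : ℕ, x ^ 2 + y ^ 2 ≠ A * n + B) →
      (∀ n : ℕ, 2 ∣ nu 3 (A * n + B)) → ∀ n : ℕ, 4 ∣ nu 2 (A * n + B)) ∧
    (∀ A B : ℕ, (∀ n : ℕ, (A * n + B) % 8 = 6) →
      (∀ n : ℕ, 2 ∣ nu 3 (A * n + B)) → ∀ n : ℕ, 4 ∣ nu 2 (A * n + B)) := by
  refine ⟨?_, fun A B hm h2 h3 => prog_impl hm h2 h3, fun A B hm h3 =>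
    prog_impl (fun n => by have := hm n; omega) (fun n x y => not_two_sq (hm n)) h3⟩
  intro m hm h2 h3
  obtain ⟨u, rfl⟩ : ∃ u, m = 2 * u := ⟨m / 2, by omega⟩
  exact nu_two_of_nu_three (by omega) h2 h3

end Pool.Agent.Results.MP_82f05f_nt.AvoidTwoSquares
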